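import Pool.Agent.REV.StmtsV3

/-!
# Squad REV, row VE3: the next density through `R^2 - ph`, `n = 3`
-/

set_option autoImplicit false

open Set MeasureTheory Filter
open scoped Topology

namespace Pool.Agent.REV.H88

open Pool.Agent.REV

theorem psd_meas3 (b : ℝ) : Measurable (psd 3 b) := by
  unfold psd wb
  fun_prop

/-- row VE3 -/
theorem ve3 (vd3 : Vd3Stmt) (vm3 : Vm3Stmt) (vn3 : Vn3Stmt) (vt3 : Vt3Stmt) (vp3 : Vp3Stmt) :
    Ve3Stmt := by
  intro C σ f f' hC hσ hf hf' hst b hb
  set a : ℝ := 1 / b with ha'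
  have ha : 0 < a := by rw [ha']; positivity
  have h2b : 0 < 2 / b := by positivity
  have ha2 : a ≤ 2 / b := by
    rw [ha']
    gcongr
    norm_num
  obtain ⟨hd1, hzc, hdc⟩ := vd3 f hf
  obtain ⟨_, hyc, hR0, hyb, _, _, hdi, _, htail⟩ := vm3 f hf
  obtain ⟨hv1, hv2, _, _⟩ := (vn3 C σ f f' hC.le hσ.le hf hf' hst).1 b hb
  obtain ⟨_, _, ht3, _⟩ := vt3 C σ f f' hC hσ hf hf' hst (2 / b) h2b
  obtain ⟨hp1, hp2, hp3⟩ := vp3 b hb
  rw [← ha'] at hv1 hv2 hp1 hp3
  have hpm := psd_meas3 b
  have hpdef : ∀ s, ph 3 f s = yb 3 f s ^ 2 := fun s => rfl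
  -- the function `R^2 - ph` is continuous and bounded
  have hgc : ContinuousOn (fun s : ℝ => RA 3 f 1 ^ 2 - ph 3 f s) (Ici 0) := by
    simp only [hpdef]
    exact continuousOn_const.sub (hyc.pow 2)
  have hgm : AEStronglyMeasurable (fun s : ℝ => RA 3 f 1 ^ 2 - ph 3 f s)
      (volume.restrict (Ioc a (2 / b))) :=
    (hgc.mono fun s hs => ha.le.trans hs.1.le).aestronglyMeasurable measurableSet_Ioc
  have hgb : ∀ s, 0 ≤ s → |RA 3 f 1 ^ 2 - ph 3 f s| ≤ RA 3 f 1 ^ 2 := by
    intro s hs
    obtain ⟨h0, h1⟩ := hyb s hs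
    rw [hpdef, abs_le]
    constructor <;> nlinarith
  -- integrability
  have hI : IntegrableOn (fun s : ℝ => psd 3 b s * (RA 3 f 1 ^ 2 - ph 3 f s)) (Ioi a) := by
    rw [← Ioc_union_Ioi_eq_Ioi ha2]
    refine IntegrableOn.union ?_ ?_
    · have h1 := (hp3 (2 / b) ha2).1
      rw [intervalIntegrable_iff_integrableOn_Ioc_of_le ha2] at h1
      refine Integrable.mul_bdd (c := RA 3 f 1 ^ 2) h1 hgm ?_
      rw [ae_restrict_iff' measurableSet_Ioc]
      refine Eventually.of_forall fun s hs => ?_
      rw [Real.norm_eq_abs]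
      exact hgb s (ha.le.trans hs.1.le)
    · refine Integrable.bdd_mul (c := 2) ht3 hpm.aestronglyMeasurable ?_
      rw [ae_restrict_iff' measurableSet_Ioi]
      refine Eventually.of_forall fun s hs => ?_
      rw [Real.norm_eq_abs, abs_of_nonneg (hp1 s (ha2.trans_lt hs)).2]
      exact hp2 s (le_of_lt hs)
  refine ⟨hI, ?_⟩
  rw [hv2]
  congr 1
  -- Tonelli
  have hdm : AEStronglyMeasurable (dph 3 f) (volume.restrict (Ioi a)) :=
    (hdc.mono (Ioi_subset_Ioi ha.le)).aestronglyMeasurable measurableSet_Ioi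
  set F : ℝ → ℝ → ℝ := fun β s => (Iic β).indicator (fun s => psd 3 b s * dph 3 f β) s with hF
  have hin : ∀ β, a < β → ∫ s in Ioi a, F β s =
      wb b β ^ (1 / 2 : ℝ) * (β * dph 3 f β) := by
    intro β hβ
    rw [hF]
    dsimp only
    rw [setIntegral_indicator measurableSet_Iic, Ioi_inter_Iic, integral_mul_const,
      ← intervalIntegral.integral_of_le hβ.le, (hp3 β hβ.le).2]
    ring
  have hout : ∀ s, a < s → ∫ β in Ioi a, F β s =
      psd 3 b s * (RA 3 f 1 ^ 2 - ph 3 f s) := by
    intro s hs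
    have h1 : ∀ β, F β s = (Ici s).indicator (fun β => psd 3 b s * dph 3 f β) β := by
      intro β
      rw [hF]
      dsimp only
      by_cases h : s ≤ β
      · rw [indicator_of_mem (show s ∈ Iic β from h), indicator_of_mem (show β ∈ Ici s from h)]
      · rw [indicator_of_notMem (show s ∉ Iic β from h),
          indicator_of_notMem (show β ∉ Ici s from h)]
    have h2 : Ioi a ∩ Ici s = Ici s := by
      rw [inter_eq_right]
      intro x hx
      exact lt_of_lt_of_le hs hx
    rw [integral_congr_ae (Eventually.of_forall h1)]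
    rw [setIntegral_indicator measurableSet_Ici, h2, integral_const_mul,
      integral_Ici_eq_integral_Ioi, htail s (ha.le.trans hs.le)]
  have hFm : AEStronglyMeasurable (Function.uncurry F)
      ((volume.restrict (Ioi a)).prod (volume.restrict (Ioi a))) := by
    have h1 : Function.uncurry F = {z : ℝ × ℝ | z.2 ≤ z.1}.indicator
        (fun z => psd 3 b z.2 * dph 3 f z.1) := by
      ext z
      obtain ⟨β, s⟩ := z
      rw [hF]
      simp only [Function.uncurry]
      by_cases h : s ≤ β
      · rw [indicator_of_mem (show s ∈ Iic β from h),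
          indicator_of_mem (show (β, s) ∈ {z : ℝ × ℝ | z.2 ≤ z.1} from h)]
      · rw [indicator_of_notMem (show s ∉ Iic β from h),
          indicator_of_notMem (show (β, s) ∉ {z : ℝ × ℝ | z.2 ≤ z.1} from h)]
    rw [h1]
    refine AEStronglyMeasurable.indicator ?_ (measurableSet_le measurable_snd measurable_fst)
    exact (hpm.comp measurable_snd).aestronglyMeasurable.mul hdm.comp_fst
  have hFi : Integrable (Function.uncurry F)
      ((volume.restrict (Ioi a)).prod (volume.restrict (Ioi a))) := by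
    rw [integrable_prod_iff hFm]
    constructor
    · rw [ae_restrict_iff' measurableSet_Ioi]
      refine Eventually.of_forall fun β hβ => ?_
      have h1 : IntegrableOn (fun s => psd 3 b s * dph 3 f β) (Ioc a β) := by
        have h2 := (hp3 β (le_of_lt hβ)).1
        rw [intervalIntegrable_iff_integrableOn_Ioc_of_le (le_of_lt hβ)] at h2
        exact h2.mul_const _
      show Integrable (F β) (volume.restrict (Ioi a))
      rw [hF]
      dsimp only
      rw [integrable_indicator_iff measurableSet_Iic, IntegrableOn,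
        Measure.restrict_restrict measurableSet_Iic, Iic_inter_Ioi]
      exact h1
    · refine Integrable.congr (f := fun β => wb b β ^ (1 / 2 : ℝ) * (β * dph 3 f β))
        hv1 ?_
      rw [EventuallyEq, ae_restrict_iff' measurableSet_Ioi]
      refine Eventually.of_forall fun β hβ => ?_
      rw [← hin β hβ]
      refine setIntegral_congr_fun measurableSet_Ioi fun s hs => ?_
      show F β s = ‖F β s‖
      have h0 : 0 ≤ F β s := by
        rw [hF]
        dsimp only
        by_cases h : s ≤ β
        · rw [indicator_of_mem (show s ∈ Iic β from h)]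
          exact mul_nonneg (hp1 s hs).2 (hd1 β (ha.trans hβ)).2.2.2
        · rw [indicator_of_notMem (show s ∉ Iic β from h)]
      rw [Real.norm_eq_abs, abs_of_nonneg h0]
  calc ∫ β in Ioi a, wb b β ^ (1 / 2 : ℝ) * (β * dph 3 f β)
      = ∫ β in Ioi a, ∫ s in Ioi a, F β s :=
        setIntegral_congr_fun measurableSet_Ioi fun β hβ => (hin β hβ).symm
    _ = ∫ s in Ioi a, ∫ β in Ioi a, F β s := integral_integral_swap hFi
    _ = ∫ s in Ioi a, psd 3 b s * (RA 3 f 1 ^ 2 - ph 3 f s) :=
        setIntegral_congr_fun measurableSet_Ioi fun s hs => hout s hs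

end Pool.Agent.REV.H88
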