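import Pool.Agent.REV.StmtsP3

/-!
# Squad REV, row PST: the start exponent
-/

set_option autoImplicit false

open Set MeasureTheory Filter
open scoped Topology

namespace Pool.Agent.REV.H88

open Pool.Agent.REV

theorem tt_mem (b : ℝ) : (Real.sqrt (1 + b ^ 2))⁻¹ ∈ Icc (0 : ℝ) 1 ∧
    ((Real.sqrt (1 + b ^ 2))⁻¹) ^ 2 = (1 + b ^ 2)⁻¹ := by
  have h1 : (0 : ℝ) ≤ 1 + b ^ 2 := by positivity
  have h2 : (1 : ℝ) ≤ Real.sqrt (1 + b ^ 2) := by
    rw [Real.one_le_sqrt]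
    nlinarith [sq_nonneg b]
  refine ⟨⟨by positivity, inv_le_one_of_one_le₀ h2⟩, ?_⟩
  rw [inv_pow, Real.sq_sqrt h1]

/-- row PST -/
theorem pst : PstStmt := by
  intro K f hK hc hpos hL
  obtain ⟨t0, ht0, hmin⟩ := isCompact_Icc.exists_isMinOn
    (nonempty_Icc.mpr (zero_le_one : (0 : ℝ) ≤ 1)) hc
  have hh : 0 < f t0 := hpos t0 ht0
  have hge : ∀ t ∈ Icc (0 : ℝ) 1, f t0 ≤ f t := fun t ht => hmin ht
  set h := f t0 with hdef
  set p := K / h with hp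
  have hp0 : 0 ≤ p := by positivity
  have hph : p * h = K := by rw [hp]; field_simp
  refine ⟨p, hp0, ?_⟩
  intro b hb b' hb' hbb
  replace hb : 0 < b := hb
  replace hb' : 0 < b' := hb'
  show b ^ (p + 4) * uU f b ≤ b' ^ (p + 4) * uU f b'
  unfold uU
  set t := (Real.sqrt (1 + b ^ 2))⁻¹ with ht
  set t' := (Real.sqrt (1 + b' ^ 2))⁻¹ with ht'
  obtain ⟨htm, ht2⟩ := tt_mem b
  obtain ⟨htm', ht2'⟩ := tt_mem b'
  rw [← ht] at htm ht2
  rw [← ht'] at htm' ht2'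
  have e1 : b ^ (p + 4) = b ^ p * b ^ 4 := by
    rw [Real.rpow_add hb]
    congr 1
    exact_mod_cast Real.rpow_natCast b 4
  have e2 : b' ^ (p + 4) = b' ^ p * b' ^ 4 := by
    rw [Real.rpow_add hb']
    congr 1
    exact_mod_cast Real.rpow_natCast b' 4
  rw [e1, e2]
  -- the first factor
  have h1 : b ^ 4 * ((1 + b ^ 2) ^ 2)⁻¹ ≤ b' ^ 4 * ((1 + b' ^ 2) ^ 2)⁻¹ := by
    have h2 : b ^ 2 * (1 + b ^ 2)⁻¹ ≤ b' ^ 2 * (1 + b' ^ 2)⁻¹ := by
      rw [← div_eq_mul_inv, ← div_eq_mul_inv, div_le_div_iff₀ (by positivity) (by positivity)]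
      nlinarith
    have h3 : 0 ≤ b ^ 2 * (1 + b ^ 2)⁻¹ := by positivity
    calc b ^ 4 * ((1 + b ^ 2) ^ 2)⁻¹ = (b ^ 2 * (1 + b ^ 2)⁻¹) ^ 2 := by
          rw [mul_pow, inv_pow]
          ring
      _ ≤ (b' ^ 2 * (1 + b' ^ 2)⁻¹) ^ 2 := by gcongr
      _ = b' ^ 4 * ((1 + b' ^ 2) ^ 2)⁻¹ := by
          rw [mul_pow, inv_pow]
          ring
  -- the logarithm
  have hlog : (1 + b ^ 2)⁻¹ - (1 + b' ^ 2)⁻¹ ≤ Real.log (b' / b) := by
    have h2 : 1 - (b' / b)⁻¹ ≤ Real.log (b' / b) := Real.one_sub_inv_le_log_of_pos (by positivity)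
    refine le_trans ?_ h2
    rw [inv_div, inv_eq_one_div, inv_eq_one_div, div_sub_div _ _ (by positivity) (by positivity),
      show (1 : ℝ) - b / b' = (b' - b) / b' by field_simp, div_le_div_iff₀ (by positivity) hb']
    have h3 : (b' + b) * b' ≤ (1 + b ^ 2) * (1 + b' ^ 2) := by
      nlinarith [sq_nonneg (b * b' - 1), sq_nonneg b, sq_nonneg (b * b')]
    have h4 : 0 ≤ b' - b := by linarith
    nlinarith [mul_le_mul_of_nonneg_left h3 h4]
  have hlog0 : 0 ≤ Real.log (b' / b) := Real.log_nonneg (by rw [le_div_iff₀ hb]; linarith)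
  -- the second factor
  have h2 : f t ≤ (b' / b) ^ p * f t' := by
    have h3 := hL t htm t' htm'
    rw [ht2, ht2'] at h3
    have h4 : (0 : ℝ) ≤ (1 + b ^ 2)⁻¹ - (1 + b' ^ 2)⁻¹ := by
      have : (1 + b' ^ 2)⁻¹ ≤ (1 + b ^ 2)⁻¹ := by gcongr
      linarith
    rw [abs_of_nonneg h4] at h3
    have h5 : f t ≤ f t' + K * Real.log (b' / b) := by
      have h6 := (abs_le.mp h3).2
      have h7 := mul_le_mul_of_nonneg_left hlog hK
      linarith
    have h6 : K * Real.log (b' / b) ≤ p * Real.log (b' / b) * f t' := by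
      have h7 : h ≤ f t' := hge t' htm'
      have h8 : 0 ≤ p * Real.log (b' / b) := by positivity
      calc K * Real.log (b' / b) = p * Real.log (b' / b) * h := by rw [← hph]; ring
        _ ≤ _ := mul_le_mul_of_nonneg_left h7 h8
    have h7 : p * Real.log (b' / b) + 1 ≤ (b' / b) ^ p := by
      rw [Real.rpow_def_of_pos (by positivity), mul_comm (Real.log _)]
      exact Real.add_one_le_exp _
    have h8 : 0 < f t' := hpos t' htm'
    calc f t ≤ f t' + K * Real.log (b' / b) := h5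
      _ ≤ (p * Real.log (b' / b) + 1) * f t' := by linarith
      _ ≤ _ := mul_le_mul_of_nonneg_right h7 h8.le
  have h3 : b ^ p * f t ≤ b' ^ p * f t' := by
    have h4 : b ^ p * (b' / b) ^ p = b' ^ p := by
      rw [← Real.mul_rpow hb.le (by positivity)]
      congr 1
      field_simp
    calc b ^ p * f t ≤ b ^ p * ((b' / b) ^ p * f t') := by gcongr
      _ = b' ^ p * f t' := by rw [← mul_assoc, h4]
  have h4 : 0 ≤ b ^ p * f t := mul_nonneg (by positivity) (hpos t htm).le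
  have h5 : 0 ≤ b' ^ 4 * ((1 + b' ^ 2) ^ 2)⁻¹ := by positivity
  calc b ^ p * b ^ 4 * (((1 + b ^ 2) ^ 2)⁻¹ * f t)
      = (b ^ 4 * ((1 + b ^ 2) ^ 2)⁻¹) * (b ^ p * f t) := by ring
    _ ≤ (b' ^ 4 * ((1 + b' ^ 2) ^ 2)⁻¹) * (b' ^ p * f t') := mul_le_mul h1 h3 h4 h5
    _ = b' ^ p * b' ^ 4 * (((1 + b' ^ 2) ^ 2)⁻¹ * f t') := by ring

end Pool.Agent.REV.H88
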